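import Pool.Agent.Helper18.IP.Model

/-!
# Nondeterministic programs which inspect a constant fraction of the input: definitions
-/

namespace Pool.Agent.Helper74.NS

/-- A nondeterministic branching program with `S` states for input cells `C` with contents in `A`: each state either
queries a cell (and moves, depending on the answer, to one of a set of states) or is final with an output. -/
structure NBP (C A : Type) (S : ℕ) where
  start : Fin S
  act : Fin S → (C × (A → Set (Fin S))) ⊕ A

/-- `B.Run I s l t`: on the input `I` the program can go from the state `s` to the state `t`, querying the cells in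
the list `l`, in this order. -/
inductive NBP.Run {C A : Type} {S : ℕ} (B : NBP C A S) (I : C → A) : Fin S → List C → Fin S → Prop
  | nil (s : Fin S) : B.Run I s [] s
  | cons (s s' t : Fin S) (c : C) (next : A → Set (Fin S)) (l : List C) :
      B.act s = Sum.inl (c, next) → s' ∈ next (I c) → B.Run I s' l t → B.Run I s (c :: l) t

/-- Some computation on the input `I` queries the cells in the list `l` and reaches a final state with output `a`. -/
def NBP.Ends {C A : Type} {S : ℕ} (B : NBP C A S) (I : C → A) (l : List C) (a : A) : Prop :=
  ∃ t, B.Run I B.start l t ∧ B.act t = Sum.inr a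

/-- The same, and no computation on `I` which reaches a final state is shorter. -/
def NBP.Shortest {C A : Type} {S : ℕ} (B : NBP C A S) (I : C → A) (l : List C) (a : A) : Prop :=
  B.Ends I l a ∧ ∀ l' a', B.Ends I l' a' → l.length ≤ l'.length

/-- The input: `d` tables for functions `A → A`, `(s, x)` is the cell of the table `s` at `x`. -/
abbrev Cell (d : ℕ) (A : Type) : Type := Fin d × A

/-- The rows of length `N`: row `0` is `x0`, and `x (i + 1) u = ∑ s, f s (x i (g s u))`, where `f s` is the table `s` of
the input. -/
def val {N d : ℕ} {A : Type} [AddCommGroup A] (g : Fin d → Equiv.Perm (Fin N)) (x0 : Fin N → A)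
    (I : Cell d A → A) : ℕ → Fin N → A
  | 0, u => x0 u
  | i + 1, u => ∑ s, I (s, val g x0 I i (g s u))

/-- The result: the sum of the values of the first table at the elements of row `R`. -/
def out {N d : ℕ} [NeZero d] {A : Type} [AddCommGroup A] (g : Fin d → Equiv.Perm (Fin N)) (x0 : Fin N → A) (R : ℕ)
    (I : Cell d A → A) : A :=
  ∑ u, I (0, val g x0 I R u)

/-- The permutations expand: the images of a set of at least `a` elements have together at least `4 a` elements. -/
def Expands {N d : ℕ} (g : Fin d → Equiv.Perm (Fin N)) (a : ℕ) : Prop :=
  ∀ X : Finset (Fin N), a ≤ X.card → 4 * a ≤ (Finset.univ.filter (fun v => ∃ s, ∃ u ∈ X, g s u = v)).card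

end Pool.Agent.Helper74.NS
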