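import Pool.Agent.Helper74.NS.Basic

/-!
# A class has at most `T ^ a` elements
-/

namespace Pool.Agent.Helper74.NS

/-- A tree with `a` levels in which every node has at most `T` children has at most `T ^ a` leaves. -/
theorem card_tree {A : Type} [DecidableEq A] {T : ℕ} : ∀ {a : ℕ} (X : Finset (Fin a → A)),
    (∀ Y ⊆ X, Y.Nonempty → ∀ j : Fin a, (∀ x ∈ Y, ∀ y ∈ Y, ∀ i < j, x i = y i) →
      (Y.image (fun x => x j)).card ≤ T) → X.card ≤ T ^ a := by
  intro a
  induction a with
  | zero =>
    intro X _
    rw [pow_zero]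
    exact Finset.card_le_one_of_subsingleton X
  | succ a ih =>
    intro X hX
    have h1 : (X.image (fun x => x 0)).card ≤ T := by
      rcases X.eq_empty_or_nonempty with rfl | hne
      · simp
      · exact hX X subset_rfl hne 0 fun x _ y _ i hi => (Fin.not_lt_zero i hi).elim
    have h2 : X.card ≤ T ^ a * (X.image (fun x => x 0)).card := by
      refine Finset.card_le_mul_card_image X (T ^ a) fun b _ => ?_
      set Xb := X.filter (fun x => x 0 = b) with hXb
      have hinj : Set.InjOn (fun (x : Fin (a + 1) → A) (i : Fin a) => x i.succ) Xb := by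
        intro x hx y hy hxy
        rw [Finset.mem_coe, hXb, Finset.mem_filter] at hx hy
        funext i
        refine Fin.cases ?_ (fun i => ?_) i
        · rw [hx.2, hy.2]
        · exact congrFun hxy i
      rw [← Finset.card_image_of_injOn hinj]
      refine ih _ fun Y' hY' hne j hj => ?_
      set Y := Xb.filter (fun x => (fun i : Fin a => x i.succ) ∈ Y') with hY
      have h3 : Y'.image (fun x => x j) ⊆ Y.image (fun x => x j.succ) := by
        intro z hz
        obtain ⟨y', hy', rfl⟩ := Finset.mem_image.mp hz
        obtain ⟨y, hy, hyy⟩ := Finset.mem_image.mp (hY' hy')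
        refine Finset.mem_image.mpr ⟨y, ?_, ?_⟩
        · rw [hY, Finset.mem_filter]
          exact ⟨hy, by rw [hyy]; exact hy'⟩
        · have := congrFun hyy j
          exact this
      refine (Finset.card_le_card h3).trans ?_
      refine hX Y ((Finset.filter_subset _ _).trans (Finset.filter_subset _ _)) ?_ j.succ ?_
      · obtain ⟨y', hy'⟩ := hne
        obtain ⟨y, hy, hyy⟩ := Finset.mem_image.mp (hY' hy')
        refine ⟨y, ?_⟩
        rw [hY, Finset.mem_filter]
        exact ⟨hy, by rw [hyy]; exact hy'⟩
      · intro x hx y hy i hi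
        rw [hY, Finset.mem_filter, hXb, Finset.mem_filter] at hx hy
        revert hi
        refine Fin.cases (fun _ => ?_) (fun i hi => ?_) i
        · rw [hx.1.2, hy.1.2]
        · exact hj _ hx.2 _ hy.2 i (Fin.succ_lt_succ_iff.mp hi)
    calc X.card ≤ T ^ a * (X.image (fun x => x 0)).card := h2
      _ ≤ T ^ a * T := Nat.mul_le_mul_left _ h1
      _ = T ^ (a + 1) := (pow_succ T a).symm

variable {N d : ℕ} {A : Type} [AddCommGroup A] {S : ℕ}
variable {g : Fin d → Equiv.Perm (Fin N)} {x0 : Fin N → A} {i a : ℕ} {u : Fin a → Fin N} {r : Fin a → Fin d}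

theorem chg_ne {y : Fin a → A} {I : Cell d A → A} (c : Cell d A) (h : chg g x0 i u r y I c ≠ 0) :
    ∃ s v, c = (s, val g x0 I i v) := by
  by_contra hc
  apply h
  unfold chg
  refine Finset.sum_eq_zero fun j _ => ?_
  rw [if_neg]
  intro hj
  exact hc ⟨_, _, hj⟩

theorem chg_of_not {y : Fin a → A} {I : Cell d A → A} {c : Cell d A} (h : ∀ j, c ≠ hole g x0 i u r I j) :
    chg g x0 i u r y I c = 0 := by
  unfold chg
  exact Finset.sum_eq_zero fun j _ => if_neg (h j)

/-- The value of an element of row `i + 1` after the change. -/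
theorem val_chg {I : Cell d A → A} (h : CF g x0 i I) (y : Fin a → A) (v : Fin N) :
    val g x0 (I + chg g x0 i u r y I) (i + 1) v =
      val g x0 I (i + 1) v + ∑ j, if u j = v then y j else 0 := by
  rw [val_add_succ h _ chg_ne]
  congr 1
  unfold chg
  rw [Finset.sum_comm]
  refine Finset.sum_congr rfl fun j _ => ?_
  have h1 : ∀ s, ((s, val g x0 I i (g s v)) : Cell d A) = hole g x0 i u r I j ↔ (r j = s ∧ u j = v) := by
    intro s
    unfold hole
    rw [Prod.mk.injEq]
    constructor
    · rintro ⟨rfl, h2⟩
      have h3 := (h i i _ _ le_rfl le_rfl h2).2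
      exact ⟨rfl, ((g (r j)).injective h3).symm⟩
    · rintro ⟨rfl, rfl⟩
      exact ⟨rfl, rfl⟩
  by_cases h2 : u j = v
  · rw [if_pos h2, Finset.sum_eq_single (r j)]
    · rw [if_pos ((h1 (r j)).mpr ⟨rfl, h2⟩)]
    · intro s _ hs
      rw [if_neg fun h3 => hs ((h1 s).mp h3).1.symm]
    · intro h3
      exact (h3 (Finset.mem_univ _)).elim
  · rw [if_neg h2]
    refine Finset.sum_eq_zero fun s _ => ?_
    rw [if_neg fun h3 => h2 ((h1 s).mp h3).2]

theorem val_chg_le {I : Cell d A → A} (h : CF g x0 i I) (y : Fin a → A) {j : ℕ} (hj : j ≤ i) (v : Fin N) :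
    val g x0 (I + chg g x0 i u r y I) j v = val g x0 I j v :=
  val_add h _ chg_ne j hj v

theorem hole_chg {I : Cell d A → A} (h : CF g x0 i I) (y : Fin a → A) (j : Fin a) :
    hole g x0 i u r (I + chg g x0 i u r y I) j = hole g x0 i u r I j := by
  unfold hole
  rw [val_chg_le h y le_rfl]

/-- P3: a class has at most `T ^ a` elements. -/
theorem class_bound [Fintype A] (B : NBP (Cell d A) A S) (g : Fin d → Equiv.Perm (Fin N)) (x0 : Fin N → A)
    {R T i a : ℕ} (hi : i < R) (u : Fin a → Fin N) (hu : StrictMono u) (r : Fin a → Fin d) (s t : Fin S)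
    (I : Cell d A → A) (hI : CF g x0 i I) :
    Nat.card {y : Fin a → A // InX B g x0 R T i u r s t (I + chg g x0 i u r y I)} ≤ T ^ a := by
  classical
  rw [Nat.card_eq_fintype_card, Fintype.card_subtype]
  refine card_tree _ fun Y hY hne j hj => ?_
  -- the windows
  have hw : ∀ y ∈ Y, ∃ w : List (Cell d A), Best B g x0 R (I + chg g x0 i u r y I) s w t ∧
      Nat.card {c // c ∈ w} ≤ T ∧ ∀ j, (∃ s', (s', val g x0 I (i + 1) (u j) + y j) ∈ w) ∧
        hole g x0 i u r I j ∉ w := by
    intro y hy
    obtain ⟨_, w, h1, h2, h3⟩ := (Finset.mem_filter.mp (hY hy)).2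
    refine ⟨w, h1, h2, fun j => ?_⟩
    have h4 : val g x0 (I + chg g x0 i u r y I) (i + 1) (u j) = val g x0 I (i + 1) (u j) + y j := by
      rw [val_chg hI, Finset.sum_eq_single j]
      · rw [if_pos rfl]
      · intro j' _ hj'
        rw [if_neg fun h => hj' (hu.injective h)]
      · intro h
        exact (h (Finset.mem_univ _)).elim
    have h5 := h3 j
    rw [h4, hole_chg hI] at h5
    exact h5
  choose! W hW using hw
  -- the windows are valid for all elements of the class
  have hval : ∀ y y', y ∈ Y → B.Run (I + chg g x0 i u r y' I) s (W y) t := by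
    intro y y' hy
    refine run_congr (hW y hy).1.run fun c hc => ?_
    have h1 : ∀ j, c ≠ hole g x0 i u r I j := fun j h => ((hW y hy).2.2 j).2 (h ▸ hc)
    rw [Pi.add_apply, Pi.add_apply, chg_of_not h1, chg_of_not h1]
  -- the element with the smallest potential
  obtain ⟨z, hz, hmin⟩ := Finset.exists_min_image Y
    (fun y => NS.pot g x0 R (I + chg g x0 i u r y I) (W y)) hne
  -- every value of `u j` is queried in the window of `z`
  have hkey : ∀ y ∈ Y, ∃ s', (s', val g x0 I (i + 1) (u j) + y j) ∈ W z := by
    intro y hy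
    by_contra hno
    push Not at hno
    have hlen : (W z).length = (W y).length :=
      le_antisymm ((hW z hz).1.len _ (hval y z hy)) ((hW y hy).1.len _ (hval z y hz))
    have h1 : NS.pot g x0 R (I + chg g x0 i u r y I) (W y) ≤ NS.pot g x0 R (I + chg g x0 i u r y I) (W z) :=
      (hW y hy).1.pot _ (hval z y hz) hlen
    have h2 : NS.pot g x0 R (I + chg g x0 i u r z I) (W z) ≤ NS.pot g x0 R (I + chg g x0 i u r y I) (W y) :=
      hmin y hy
    have h3 : NS.pot g x0 R (I + chg g x0 i u r y I) (W z) < NS.pot g x0 R (I + chg g x0 i u r z I) (W z) := by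
      have hi1 : i + 1 < R + 1 := by omega
      refine ⟨toLex ((⟨i + 1, hi1⟩ : Fin (R + 1)), u j), fun m hm => ?_, ?_⟩
      · -- the positions before `u j` do not change
        have h4 : val g x0 (I + chg g x0 i u r y I) ((ofLex m).1 : ℕ) (ofLex m).2 =
            val g x0 (I + chg g x0 i u r z I) ((ofLex m).1 : ℕ) (ofLex m).2 := by
          rcases Prod.Lex.lt_iff.mp hm with h5 | ⟨h5, h6⟩
          · have h7 : ((ofLex m).1 : ℕ) ≤ i := by
              have h8 : ((ofLex m).1 : ℕ) < i + 1 := h5
              omega
            rw [val_chg_le hI y h7, val_chg_le hI z h7]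
          · have h7 : ((ofLex m).1 : ℕ) = i + 1 := by
              rw [h5]
              rfl
            rw [h7, val_chg hI, val_chg hI]
            congr 1
            refine Finset.sum_congr rfl fun j' _ => ?_
            by_cases h8 : u j' = (ofLex m).2
            · rw [if_pos h8, if_pos h8]
              refine hj y hy z hz j' ?_
              have h9 : (ofLex m).2 < u j := h6
              rw [← h8] at h9
              exact hu.lt_iff_lt.mp h9
            · rw [if_neg h8, if_neg h8]
        show List.countP _ (W z) = List.countP _ (W z)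
        rw [h4]
      · -- the number of queries at the position of `u j` drops
        have h4 : ∀ y' : Fin a → A, val g x0 (I + chg g x0 i u r y' I) (i + 1) (u j) =
            val g x0 I (i + 1) (u j) + y' j := by
          intro y'
          rw [val_chg hI, Finset.sum_eq_single j]
          · rw [if_pos rfl]
          · intro j' _ hj'
            rw [if_neg fun h => hj' (hu.injective h)]
          · intro h
            exact (h (Finset.mem_univ _)).elim
        have h5 : (W z).countP (fun c => decide (c.2 = val g x0 (I + chg g x0 i u r y I) (i + 1) (u j))) = 0 := by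
          rw [List.countP_eq_zero]
          intro c hc hc2
          rw [h4 y, decide_eq_true_eq] at hc2
          exact hno c.1 (by rw [← hc2]; exact hc)
        have h6 : 0 < (W z).countP (fun c => decide (c.2 = val g x0 (I + chg g x0 i u r z I) (i + 1) (u j))) := by
          rw [List.countP_pos_iff]
          obtain ⟨s', hs'⟩ := ((hW z hz).2.2 j).1
          exact ⟨_, hs', by rw [h4 z]; simp⟩
        show (W z).countP (fun c => decide (c.2 = val g x0 (I + chg g x0 i u r y I) (i + 1) (u j))) <
          (W z).countP (fun c => decide (c.2 = val g x0 (I + chg g x0 i u r z I) (i + 1) (u j)))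
        rw [h5]
        exact h6
    exact absurd (h1.trans_lt (h3.trans_le h2)) (lt_irrefl _)
  -- the number of values
  have h1 : Y.image (fun x => x j) ⊆ (W z).toFinset.image (fun c => c.2 - val g x0 I (i + 1) (u j)) := by
    intro b hb
    obtain ⟨y, hy, rfl⟩ := Finset.mem_image.mp hb
    obtain ⟨s', hs'⟩ := hkey y hy
    exact Finset.mem_image.mpr ⟨_, List.mem_toFinset.mpr hs', by simp⟩
  refine (Finset.card_le_card h1).trans (Finset.card_image_le.trans ?_)
  have h2 := (hW z hz).2.1
  rw [Nat.card_eq_fintype_card, Fintype.card_of_subtype (W z).toFinset (fun c => List.mem_toFinset)] at h2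
  exact h2

end Pool.Agent.Helper74.NS
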