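import Pool.Agent.Helper74.NS.Defs

/-!
# Basic facts
-/

namespace Pool.Agent.Helper74.NS

variable {N d : ℕ} {A : Type} [AddCommGroup A]

theorem val_zero (g : Fin d → Equiv.Perm (Fin N)) (x0 : Fin N → A) (I : Cell d A → A) (u : Fin N) :
    val g x0 I 0 u = x0 u := rfl

theorem val_succ (g : Fin d → Equiv.Perm (Fin N)) (x0 : Fin N → A) (I : Cell d A → A) (i : ℕ) (u : Fin N) :
    val g x0 I (i + 1) u = ∑ s, I (s, val g x0 I i (g s u)) := rfl

/-- All elements of the rows `0, ..., i` are different. -/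
def CF (g : Fin d → Equiv.Perm (Fin N)) (x0 : Fin N → A) (i : ℕ) (I : Cell d A → A) : Prop :=
  ∀ j j' u u', j ≤ i → j' ≤ i → val g x0 I j u = val g x0 I j' u' → j = j' ∧ u = u'

theorem CF.mono {g : Fin d → Equiv.Perm (Fin N)} {x0 : Fin N → A} {i i' : ℕ} {I : Cell d A → A}
    (h : CF g x0 i I) (hi : i' ≤ i) : CF g x0 i' I :=
  fun j j' u u' hj hj' e => h j j' u u' (hj.trans hi) (hj'.trans hi) e

/-- Changing the contents of right cells of row `i`: the rows up to `i` do not change. -/
theorem val_add {g : Fin d → Equiv.Perm (Fin N)} {x0 : Fin N → A} {i : ℕ} {I : Cell d A → A} (h : CF g x0 i I)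
    (δ : Cell d A → A) (hδ : ∀ c, δ c ≠ 0 → ∃ s v, c = (s, val g x0 I i v)) :
    ∀ j ≤ i, ∀ u, val g x0 (I + δ) j u = val g x0 I j u := by
  intro j
  induction j with
  | zero => intro _ u; rfl
  | succ j ih =>
    intro hj u
    rw [val_succ, val_succ]
    refine Finset.sum_congr rfl fun s _ => ?_
    rw [ih (by omega), Pi.add_apply]
    have h1 : δ (s, val g x0 I j (g s u)) = 0 := by
      by_contra h2
      obtain ⟨s', v, h3⟩ := hδ _ h2
      have h4 := (h j i (g s u) v (by omega) le_rfl (Prod.mk.inj h3).2).1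
      omega
    rw [h1, add_zero]

/-- The effect on row `i + 1`. -/
theorem val_add_succ {g : Fin d → Equiv.Perm (Fin N)} {x0 : Fin N → A} {i : ℕ} {I : Cell d A → A}
    (h : CF g x0 i I) (δ : Cell d A → A) (hδ : ∀ c, δ c ≠ 0 → ∃ s v, c = (s, val g x0 I i v)) (u : Fin N) :
    val g x0 (I + δ) (i + 1) u = val g x0 I (i + 1) u + ∑ s, δ (s, val g x0 I i (g s u)) := by
  rw [val_succ, val_succ, ← Finset.sum_add_distrib]
  refine Finset.sum_congr rfl fun s _ => ?_
  rw [val_add h δ hδ i le_rfl, Pi.add_apply]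

/-- The effect on the result, for `i = R`. -/
theorem out_add [NeZero d] {g : Fin d → Equiv.Perm (Fin N)} {x0 : Fin N → A} {R : ℕ} {I : Cell d A → A}
    (h : CF g x0 R I) (δ : Cell d A → A) (hδ : ∀ c, δ c ≠ 0 → ∃ s v, c = (s, val g x0 I R v)) :
    out g x0 R (I + δ) = out g x0 R I + ∑ u, δ (0, val g x0 I R u) := by
  unfold out
  rw [← Finset.sum_add_distrib]
  refine Finset.sum_congr rfl fun u _ => ?_
  rw [val_add h δ hδ R le_rfl, Pi.add_apply]

theorem CF_add {g : Fin d → Equiv.Perm (Fin N)} {x0 : Fin N → A} {i : ℕ} {I : Cell d A → A} (h : CF g x0 i I)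
    (δ : Cell d A → A) (hδ : ∀ c, δ c ≠ 0 → ∃ s v, c = (s, val g x0 I i v)) : CF g x0 i (I + δ) := by
  intro j j' u u' hj hj' e
  rw [val_add h δ hδ j hj, val_add h δ hδ j' hj'] at e
  exact h j j' u u' hj hj' e

/-! ## Runs -/

section runs

variable {C A : Type} {S : ℕ} {B : NBP C A S}

theorem run_append {I : C → A} {s r t : Fin S} {a b : List C} (ha : B.Run I s a r) (hb : B.Run I r b t) :
    B.Run I s (a ++ b) t := by
  induction ha with
  | nil s => exact hb
  | cons s s' t' c next l h1 h2 _ ih => exact NBP.Run.cons s s' t c next (l ++ b) h1 h2 (ih hb)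

theorem run_split {I : C → A} (a : List C) : ∀ {s t : Fin S} {b : List C}, B.Run I s (a ++ b) t →
    ∃ r, B.Run I s a r ∧ B.Run I r b t := by
  induction a with
  | nil =>
    intro s t b h
    exact ⟨s, NBP.Run.nil s, h⟩
  | cons c a ih =>
    intro s t b h
    cases h with
    | cons _ s' _ _ next _ h1 h2 h3 =>
      obtain ⟨r, hr1, hr2⟩ := ih h3
      exact ⟨r, NBP.Run.cons s s' r c next a h1 h2 hr1, hr2⟩

theorem run_congr {I I' : C → A} {s t : Fin S} {l : List C} (h : B.Run I s l t) (hI : ∀ c ∈ l, I c = I' c) :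
    B.Run I' s l t := by
  induction h with
  | nil s => exact NBP.Run.nil s
  | cons s s' t' c next l h1 h2 _ ih =>
    refine NBP.Run.cons s s' t' c next l h1 ?_ (ih fun c' hc' => hI c' (List.mem_cons_of_mem _ hc'))
    rw [← hI c List.mem_cons_self]
    exact h2

/-- A run of minimal length has fewer queries than there are states. -/
theorem run_short {I : C → A} {s t : Fin S} {l : List C} (h : B.Run I s l t)
    (hmin : ∀ l', B.Run I s l' t → l.length ≤ l'.length) : l.length < S := by
  have h1 : ∀ m, m ≤ l.length → ∃ r, B.Run I s (l.take m) r ∧ B.Run I r (l.drop m) t := by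
    intro m _
    exact run_split _ (by rw [List.take_append_drop]; exact h)
  by_contra hS
  push Not at hS
  have h2 : ∀ m : Fin (S + 1), ∃ r, B.Run I s (l.take m) r ∧ B.Run I r (l.drop m) t :=
    fun m => h1 m (by have := m.2; omega)
  choose f hf using h2
  obtain ⟨x, y, hxy, hfxy⟩ := Fintype.exists_ne_map_eq_of_card_lt f (by simp)
  wlog hlt : x < y generalizing x y
  · exact this y x hxy.symm hfxy.symm (lt_of_le_of_ne (not_lt.mp hlt) hxy.symm)
  have h3 : B.Run I s (l.take x ++ l.drop y) t := run_append (hf x).1 (by rw [hfxy]; exact (hf y).2)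
  have h4 := hmin _ h3
  rw [List.length_append, List.length_take, List.length_drop] at h4
  have h5 := y.2
  have h6 : (x : ℕ) < y := hlt
  omega

end runs

/-! ## The potential -/

section pot

variable {S : ℕ}

open Classical in
/-- The potential of a list of queries: for each element of the rows `0, ..., R` the number of queries at this
position; compared lexicographically, the lower rows first. -/
noncomputable def pot (g : Fin d → Equiv.Perm (Fin N)) (x0 : Fin N → A) (R : ℕ) (I : Cell d A → A)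
    (l : List (Cell d A)) : Lex (Fin (R + 1) ×ₗ Fin N → ℕ) :=
  toLex fun j => l.countP (fun c => decide (c.2 = val g x0 I ((ofLex j).1 : ℕ) (ofLex j).2))

theorem pot_append (g : Fin d → Equiv.Perm (Fin N)) (x0 : Fin N → A) (R : ℕ) (I : Cell d A → A)
    (a b : List (Cell d A)) : pot g x0 R I (a ++ b) = pot g x0 R I a + pot g x0 R I b := by
  unfold pot
  rw [← toLex_add]
  congr 1
  funext j
  simp only [List.countP_append, Pi.add_apply]

/-- A run of minimal length, and with minimal potential among those. -/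
structure Best (B : NBP (Cell d A) A S) (g : Fin d → Equiv.Perm (Fin N)) (x0 : Fin N → A) (R : ℕ)
    (I : Cell d A → A) (s : Fin S) (w : List (Cell d A)) (t : Fin S) : Prop where
  run : B.Run I s w t
  len : ∀ w', B.Run I s w' t → w.length ≤ w'.length
  pot : ∀ w', B.Run I s w' t → w'.length = w.length → pot g x0 R I w ≤ pot g x0 R I w'

variable {g : Fin d → Equiv.Perm (Fin N)} {x0 : Fin N → A} {R : ℕ} {B : NBP (Cell d A) A S} {I : Cell d A → A}

theorem Best.window {s t : Fin S} {a w b : List (Cell d A)} (h : Best B g x0 R I s (a ++ w ++ b) t) :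
    ∃ s' t', Best B g x0 R I s' w t' := by
  obtain ⟨t', h1, h2⟩ := run_split _ h.run
  obtain ⟨s', h3, h4⟩ := run_split _ h1
  refine ⟨s', t', h4, fun w' hw' => ?_, fun w' hw' hl => ?_⟩
  · have h5 := h.len _ (run_append (run_append h3 hw') h2)
    simp only [List.length_append] at h5
    omega
  · have h5 := h.pot _ (run_append (run_append h3 hw') h2) (by simp only [List.length_append]; omega)
    rw [pot_append, pot_append, pot_append, pot_append] at h5
    exact le_of_add_le_add_left (le_of_add_le_add_right h5)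

theorem exists_best (g : Fin d → Equiv.Perm (Fin N)) (x0 : Fin N → A) (R : ℕ) {l₀ : List (Cell d A)} {a₀ : A}
    (h : B.Ends I l₀ a₀) :
    ∃ l a t, Best B g x0 R I B.start l t ∧ B.act t = Sum.inr a ∧ B.Shortest I l a := by
  classical
  have hex : ∃ n, ∃ l a, B.Ends I l a ∧ l.length = n := ⟨_, l₀, a₀, h, rfl⟩
  obtain ⟨l₁, a₁, h1, h2⟩ := Nat.find_spec hex
  have hmin : ∀ l a, B.Ends I l a → Nat.find hex ≤ l.length := fun l a hl => Nat.find_min' hex ⟨l, a, hl, rfl⟩
  have hne : {p : Lex (Fin (R + 1) ×ₗ Fin N → ℕ) |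
      ∃ l a, B.Ends I l a ∧ l.length = Nat.find hex ∧ NS.pot g x0 R I l = p}.Nonempty := ⟨_, l₁, a₁, h1, h2, rfl⟩
  obtain ⟨p, ⟨l, a, ⟨t, h3, h4⟩, h5, h6⟩, h7⟩ := WellFounded.has_min (wellFounded_lt) _ hne
  refine ⟨l, a, t, ⟨h3, fun w' hw' => ?_, fun w' hw' hl => ?_⟩, h4, ⟨t, h3, h4⟩, fun l' a' hl' => ?_⟩
  · rw [h5]
    exact hmin w' a ⟨t, hw', h4⟩
  · rw [h6]
    exact not_lt.mp (h7 _ ⟨w', a, ⟨t, hw', h4⟩, by rw [hl, h5], rfl⟩)
  · rw [h5]
    exact hmin l' a' hl'

/-- A shortest computation has fewer queries than there are states. -/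
theorem shortest_lt {l : List (Cell d A)} {a : A} (h : B.Shortest I l a) : l.length < S := by
  obtain ⟨⟨t, h1, h2⟩, h3⟩ := h
  exact run_short h1 fun l' hl' => h3 l' a ⟨t, hl', h2⟩

end pot

/-! ## Windows and classes -/

open Classical in
/-- The elements of row `i` at whose position some query of the list is. -/
noncomputable def outs (g : Fin d → Equiv.Perm (Fin N)) (x0 : Fin N → A) (I : Cell d A → A) (i : ℕ)
    (l : List (Cell d A)) : Finset (Fin N) :=
  Finset.univ.filter (fun u => ∃ s, (s, val g x0 I i u) ∈ l)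

open Classical in
/-- The elements of row `i + 1` which are used in the list, but for which some cell needed for their value is not
queried in the list. -/
noncomputable def half (g : Fin d → Equiv.Perm (Fin N)) (x0 : Fin N → A) (I : Cell d A → A) (i : ℕ)
    (l : List (Cell d A)) : Finset (Fin N) :=
  (outs g x0 I (i + 1) l).filter (fun u => ∃ s, (s, val g x0 I i (g s u)) ∉ l)

/-- The hole number `j`, for elements `u j` of row `i + 1` and tables `r j`. -/
def hole {a : ℕ} (g : Fin d → Equiv.Perm (Fin N)) (x0 : Fin N → A) (i : ℕ) (u : Fin a → Fin N) (r : Fin a → Fin d)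
    (I : Cell d A → A) (j : Fin a) : Cell d A :=
  (r j, val g x0 I i (g (r j) (u j)))

open Classical in
/-- The change of the contents of the holes by `y`. -/
noncomputable def chg {a : ℕ} (g : Fin d → Equiv.Perm (Fin N)) (x0 : Fin N → A) (i : ℕ) (u : Fin a → Fin N)
    (r : Fin a → Fin d) (y : Fin a → A) (I : Cell d A → A) : Cell d A → A :=
  fun c => ∑ j, if c = hole g x0 i u r I j then y j else 0

/-- The instances with a window of the given kind. -/
def InX {a S : ℕ} (B : NBP (Cell d A) A S) (g : Fin d → Equiv.Perm (Fin N)) (x0 : Fin N → A) (R T i : ℕ)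
    (u : Fin a → Fin N) (r : Fin a → Fin d) (s t : Fin S) (I : Cell d A → A) : Prop :=
  CF g x0 i I ∧ ∃ w : List (Cell d A), Best B g x0 R I s w t ∧ Nat.card {c // c ∈ w} ≤ T ∧
    ∀ j, (∃ s', (s', val g x0 I (i + 1) (u j)) ∈ w) ∧ hole g x0 i u r I j ∉ w

end Pool.Agent.Helper74.NS
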