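import Pool.Agent.Helper74.NS.Good
import Pool.Agent.Helper60.NS.Cf
import Pool.Agent.Helper78.NS.RootB

/-!
# The main inequality
-/

namespace Pool.Agent.Helper74.NS

theorem card_le_three {X : Type} [Finite X] {P Q₁ Q₂ Q₃ : X → Prop} (h : ∀ x, P x → Q₁ x ∨ Q₂ x ∨ Q₃ x) :
    Nat.card {x // P x} ≤ Nat.card {x // Q₁ x} + Nat.card {x // Q₂ x} + Nat.card {x // Q₃ x} := by
  classical
  have := Fintype.ofFinite X
  simp only [Nat.card_eq_fintype_card, Fintype.card_subtype]
  refine (Finset.card_le_card (t := (Finset.univ.filter Q₁ ∪ Finset.univ.filter Q₂) ∪ Finset.univ.filter Q₃)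
    fun x hx => ?_).trans ((Finset.card_union_le _ _).trans (Nat.add_le_add_right (Finset.card_union_le _ _) _))
  simp only [Finset.mem_union, Finset.mem_filter, Finset.mem_univ, true_and] at hx ⊢
  rcases h x hx with h1 | h1 | h1
  · exact Or.inl (Or.inl h1)
  · exact Or.inl (Or.inr h1)
  · exact Or.inr h1

variable {N d : ℕ} {A : Type} [AddCommGroup A] {S : ℕ}

/-- P8: the main inequality. -/
theorem main_bound [Fintype A] [NeZero d] (B : NBP (Cell d A) A S) (g : Fin d → Equiv.Perm (Fin N)) (x0 : Fin N → A)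
    (h0 : Function.Injective x0) {R T a p : ℕ} (ha : 1 ≤ a) (hN : 8 * a ≤ N) (hE : Expands g a) (φ : A → A)
    (hφ : ∀ y, Nat.card {x // φ x = y} ≤ p) :
    (Nat.card {I : Cell d A → A // (∃ l b, B.Ends I l b) ∧ (∀ l b, B.Ends I l b → b = φ (out g x0 R I)) ∧
        ∀ l b, B.Shortest I l b → Nat.card {c // c ∈ l} ≤ T ∧ min S l.length ≤ 2 ^ R} : ℝ) ≤
      ((2 * p + ((R + 1) * N) ^ 2) / Fintype.card A +
        R * N.choose a * (S : ℝ) ^ 2 * (d * T / Fintype.card A) ^ a) * Nat.card (Cell d A → A) := by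
  have hk : 0 < (Fintype.card A : ℝ) := by
    have : 0 < Fintype.card A := Fintype.card_pos_iff.mpr ⟨0⟩
    exact_mod_cast this
  have h1 := Pool.Agent.Helper60.NSF.card_not_CF g x0 h0 R
  have h2 := Pool.Agent.Helper78.NS.root_bound B g x0 (R := R) (a := a) hN (by omega) φ hφ
  have h3 := good_bound B g x0 (R := R) (T := T) ha hE
  have hsub := card_le_three (X := Cell d A → A)
    (P := fun I => (∃ l b, B.Ends I l b) ∧ (∀ l b, B.Ends I l b → b = φ (out g x0 R I)) ∧
        ∀ l b, B.Shortest I l b → Nat.card {c // c ∈ l} ≤ T ∧ min S l.length ≤ 2 ^ R)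
    (Q₁ := fun I => ¬ CF g x0 R I)
    (Q₂ := fun I => CF g x0 R I ∧ (∀ l b, B.Ends I l b → b = φ (out g x0 R I)) ∧
          ∃ l b, B.Ends I l b ∧ (outs g x0 I R l).card < 4 * a)
    (Q₃ := fun I => CF g x0 R I ∧ ∃ l t, Best B g x0 R I B.start l t ∧
          Nat.card {c // c ∈ l} ≤ T ∧ 4 * a ≤ (outs g x0 I R l).card ∧ l.length ≤ 2 ^ R) (by
      rintro I ⟨⟨l₀, b₀, hl₀⟩, hr, hT⟩
      by_cases hCF : CF g x0 R I
      · right
        obtain ⟨l, b, t, hb, ht, hs⟩ := exists_best g x0 R hl₀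
        obtain ⟨h4, h5⟩ := hT l b hs
        by_cases ho : (outs g x0 I R l).card < 4 * a
        · exact Or.inl ⟨hCF, hr, l, b, hs.1, ho⟩
        · refine Or.inr ⟨hCF, l, t, hb, h4, not_lt.mp ho, ?_⟩
          have h6 := shortest_lt hs
          rcases min_le_iff.mp h5 with h7 | h7
          · exact h6.le.trans h7
          · exact h7
      · exact Or.inl hCF)
  have h1' : (Nat.card {I : Cell d A → A // ¬ CF g x0 R I} : ℝ) ≤
      ((R + 1) * N) ^ 2 / Fintype.card A * Nat.card (Cell d A → A) := by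
    rw [div_mul_eq_mul_div, le_div_iff₀ hk]
    exact_mod_cast h1
  have h2' : (Nat.card {I : Cell d A → A // CF g x0 R I ∧ (∀ l b, B.Ends I l b → b = φ (out g x0 R I)) ∧
          ∃ l b, B.Ends I l b ∧ (outs g x0 I R l).card < 4 * a} : ℝ) ≤
      2 * p / Fintype.card A * Nat.card (Cell d A → A) := by
    rw [div_mul_eq_mul_div, le_div_iff₀ hk]
    exact_mod_cast h2
  have h3' : (Nat.card {I : Cell d A → A // CF g x0 R I ∧ ∃ l t, Best B g x0 R I B.start l t ∧
          Nat.card {c // c ∈ l} ≤ T ∧ 4 * a ≤ (outs g x0 I R l).card ∧ l.length ≤ 2 ^ R} : ℝ) ≤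
      R * N.choose a * (S : ℝ) ^ 2 * (d * T / Fintype.card A) ^ a * Nat.card (Cell d A → A) := by
    have h4 : R * N.choose a * (S : ℝ) ^ 2 * (d * T / Fintype.card A) ^ a * Nat.card (Cell d A → A) =
        (R * N.choose a * d ^ a * S ^ 2 * T ^ a * Nat.card (Cell d A → A)) / (Fintype.card A : ℝ) ^ a := by
      rw [div_pow, mul_pow]
      ring
    rw [h4, le_div_iff₀ (pow_pos hk a)]
    exact_mod_cast h3
  have h5 := (Nat.cast_le (α := ℝ)).mpr hsub
  push_cast at h5
  refine h5.trans ((add_le_add (add_le_add h1' h2') h3').trans (le_of_eq ?_))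
  ring

end Pool.Agent.Helper74.NS
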