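import Pool.Agent.Helper74.NS.Main
import Pool.Agent.Helper78.NS.DecF
import Pool.Agent.Helper96.NS.Push
import Pool.Agent.Helper92.NS.Perms
import Pool.Agent.Helper78.NS.PushFin
import Pool.Agent.Helper84.NS.Row

/-!
# The theorem with numbers
-/

namespace Pool.Agent.Helper74.NS

open Pool.Agent.Helper18.IP

/-- The last term with the numbers. -/
theorem term_le {a k : ℕ} (hk : 0 < k) (hC : (8 * a).choose a ≤ 21 ^ a) (R S T : ℕ) :
    (R : ℝ) * (8 * a).choose a * (S : ℝ) ^ 2 * ((13 : ℕ) * T / k) ^ a ≤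
      R * S ^ 2 * (3549 * T / (13 * k : ℕ)) ^ a := by
  have hk' : (0 : ℝ) < k := by exact_mod_cast hk
  have h1 : ((8 * a).choose a : ℝ) ≤ 21 ^ a := by exact_mod_cast hC
  have h2 : (3549 * (T : ℝ) / (13 * k : ℕ)) ^ a = 21 ^ a * ((13 : ℕ) * T / k) ^ a := by
    rw [← mul_pow]
    congr 1
    push_cast
    field_simp
    ring
  have h3 : (0 : ℝ) ≤ R * (S : ℝ) ^ 2 * ((13 : ℕ) * T / k) ^ a := by positivity
  calc (R : ℝ) * (8 * a).choose a * (S : ℝ) ^ 2 * ((13 : ℕ) * T / k) ^ a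
      = (8 * a).choose a * (R * (S : ℝ) ^ 2 * ((13 : ℕ) * T / k) ^ a) := by ring
    _ ≤ 21 ^ a * (R * (S : ℝ) ^ 2 * ((13 : ℕ) * T / k) ^ a) := mul_le_mul_of_nonneg_right h1 h3
    _ = R * S ^ 2 * (3549 * T / (13 * k : ℕ)) ^ a := by rw [h2]; ring

theorem ns_main (a : ℕ) (ha : 1 ≤ a) :
    ∃ g : Fin 13 → Equiv.Perm (Fin (8 * a)),
      ∀ (A : Type) [AddCommGroup A] [Finite A] (R : ℕ) (x0 : Fin (8 * a) → A), Function.Injective x0 →
      ∀ k V M : ℕ, k = Nat.card A → V = (R + 1) * (8 * a) → M = 13 * k → V ≤ k →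
      (∀ (S T p : ℕ) (φ : A → A) (B : NBP (Cell 13 A) A S), (∀ y, Nat.card {x // φ x = y} ≤ p) →
        (Nat.card {I : Cell 13 A → A // (∃ l b, B.Ends I l b) ∧ (∀ l b, B.Ends I l b → b = φ (out g x0 R I)) ∧
          ∀ l b, B.Shortest I l b → Nat.card {c // c ∈ l} ≤ T ∧ min S l.length ≤ 2 ^ R} : ℝ) ≤
          ((2 * p + V ^ 2) / k + R * S ^ 2 * (3549 * T / M) ^ a) * Nat.card (Cell 13 A → A)) ∧
      (∀ (S T : ℕ) (Y : Set A) (y : ℝ) (B : NBP (Cell 13 A) A S), y = Nat.card Y / k →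
        (min y ((1 - y) / 2) - V ^ 2 / k - R * S ^ 2 * (3549 * T / M) ^ a) * Nat.card (Cell 13 A → A) ≤
          Nat.card {I : Cell 13 A → A // ¬ (((∃ l b, B.Ends I l b) ↔ out g x0 R I ∈ Y) ∧
            ∀ l b, B.Shortest I l b → Nat.card {c // c ∈ l} ≤ T ∧ min S l.length ≤ 2 ^ R)}) ∧
      (∃ (Q Γ : Type) (_ : Finite Q) (_ : Finite Γ) (P : PBP (Cell 13 A) A Q Γ),
        Nat.card Q ≤ M ^ 4 ∧ Nat.card Γ ≤ M ^ 2 ∧
        ∀ I, P.Outputs I (out g x0 R I) ∧ Nat.card {c // P.Asks I c} ≤ 13 * V) := by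
  classical
  obtain ⟨g, hg⟩ := Pool.Agent.Helper92.NS.exists_perms a ha
  have hC := Pool.Agent.Helper92.NS.choose_le a
  refine ⟨g, fun A _ _ R x0 h0 k V M hk hV hM hVk => ?_⟩
  have := Fintype.ofFinite A
  have hk2 : k = Fintype.card A := by rw [hk, Nat.card_eq_fintype_card]
  have hk0 : 0 < k := by rw [hk2]; exact Fintype.card_pos_iff.mpr ⟨0⟩
  have hV' : (V : ℝ) = (R + 1) * (8 * a : ℕ) := by rw [hV]; push_cast; ring
  refine ⟨fun S T p φ B hφ => ?_, fun S T Y y B hy => ?_, ?_⟩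
  · refine (main_bound B g x0 h0 (R := R) (T := T) ha le_rfl hg φ hφ).trans ?_
    refine mul_le_mul_of_nonneg_right ?_ (Nat.cast_nonneg _)
    rw [← hk2, hV', hM]
    exact add_le_add le_rfl (term_le hk0 hC R S T)
  · have h1 := Pool.Agent.Helper78.NS.decision_bound B g x0 h0 (R := R) (T := T) ha le_rfl hg
      (Finset.univ.filter (fun b => b ∈ Y)) y (by
        rw [hy, hk2]
        congr 2
        rw [Nat.card_eq_fintype_card]
        exact Fintype.card_of_subtype _ (fun b => by simp))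
    simp only [Finset.mem_filter, Finset.mem_univ, true_and] at h1
    refine le_trans ?_ h1
    refine mul_le_mul_of_nonneg_right ?_ (Nat.cast_nonneg _)
    rw [← hk2, hV', hM]
    have h2 := term_le hk0 hC R S T
    push_cast at h2 ⊢
    linarith
  · have h8 : 8 ≤ V := by rw [hV]; nlinarith
    obtain ⟨Q, Γ, h1, h2, P, h3, h4, h5⟩ := Pool.Agent.Helper96.NS.pushdown_program' g x0 R
      (by rw [← hk2, ← hV]; exact hVk) (by omega) (by rw [← hk2]; omega)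
    refine ⟨Q, Γ, h1, h2, P, ?_, ?_, fun I => ⟨(h5 I).1, (h5 I).2.trans ?_⟩⟩
    · rw [hM, hk2]; exact h3
    · rw [hM, hk2]; exact h4
    · rw [hV]
      nlinarith

end Pool.Agent.Helper74.NS
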