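import Pool.Agent.Helper74.NS.Basic

/-!
# Frame (only for the work, not for the graded result)
-/

namespace Pool.Agent.Helper74.NS.Frame

open Pool.Agent.Helper74.NS Pool.Agent.Helper18.IP

variable {N d : ℕ} {A : Type} [AddCommGroup A] {S : ℕ}

/-- P1 (helper60): few instances have two equal elements in the rows `0, ..., R`. -/
theorem card_not_CF [Fintype A] [NeZero d] (g : Fin d → Equiv.Perm (Fin N)) (x0 : Fin N → A)
    (h0 : Function.Injective x0) (R : ℕ) :
    Nat.card {I : Cell d A → A // ¬ CF g x0 R I} * Fintype.card A ≤ ((R + 1) * N) ^ 2 * Nat.card (Cell d A → A) := sorry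

/-- P2 (helper1): without windows with many half done elements the computation is long. -/
theorem long {g : Fin d → Equiv.Perm (Fin N)} {x0 : Fin N → A} {R a : ℕ} {I : Cell d A → A}
    (hE : Expands g a) (h : CF g x0 R I) (l : List (Cell d A)) (hl : 4 * a ≤ (outs g x0 I R l).card)
    (hh : ∀ i < R, ∀ p w q, l = p ++ w ++ q → (half g x0 I i w).card < a) : 2 ^ R * (4 * a) ≤ l.length := sorry

/-- P3 (helper74): a class has at most `T ^ a` elements. -/
theorem class_bound [Fintype A] (B : NBP (Cell d A) A S) (g : Fin d → Equiv.Perm (Fin N)) (x0 : Fin N → A)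
    {R T i a : ℕ} (hi : i < R) (u : Fin a → Fin N) (hu : StrictMono u) (r : Fin a → Fin d) (s t : Fin S)
    (I : Cell d A → A) (hI : CF g x0 i I) :
    Nat.card {y : Fin a → A // InX B g x0 R T i u r s t (I + chg g x0 i u r y I)} ≤ T ^ a := sorry

/-- P4a (helper66): the number of instances of one type. Use `class_bound` (P3) and `val_add`, `CF_add`; the shifts
`I ↦ I + chg g x0 i u r y I` are bijections of `{I // CF g x0 i I}` (inverse `-y`). -/
theorem type_bound [Fintype A] (B : NBP (Cell d A) A S) (g : Fin d → Equiv.Perm (Fin N)) (x0 : Fin N → A)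
    {R T i a : ℕ} (hi : i < R) (u : Fin a → Fin N) (hu : StrictMono u) (r : Fin a → Fin d) (s t : Fin S) :
    Nat.card {I : Cell d A → A // InX B g x0 R T i u r s t I} * Fintype.card A ^ a ≤
      T ^ a * Nat.card (Cell d A → A) := sorry

/-- P4b (helper66): all types. Use `long` (P2), `Best.window`, `Finset.orderEmbOfFin` and `type_bound` (P4a). -/
theorem good_bound [Fintype A] (B : NBP (Cell d A) A S) (g : Fin d → Equiv.Perm (Fin N)) (x0 : Fin N → A)
    {R T a : ℕ} (ha : 1 ≤ a) (hE : Expands g a) :
    Nat.card {I : Cell d A → A // CF g x0 R I ∧ ∃ l t, Best B g x0 R I B.start l t ∧ Nat.card {c // c ∈ l} ≤ T ∧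
        4 * a ≤ (outs g x0 I R l).card ∧ l.length ≤ 2 ^ R} * Fintype.card A ^ a ≤
      R * N.choose a * d ^ a * S ^ 2 * T ^ a * Nat.card (Cell d A → A) := sorry

/-- P5a (helper78): the instances with right answers for which many cells of the last row are not read. -/
theorem root_bound [Fintype A] [NeZero d] (B : NBP (Cell d A) A S) (g : Fin d → Equiv.Perm (Fin N)) (x0 : Fin N → A)
    {R a p : ℕ} (hN : 8 * a ≤ N) (hN1 : 1 ≤ N) (φ : A → A) (hφ : ∀ y, Nat.card {x // φ x = y} ≤ p) :
    Nat.card {I : Cell d A → A // CF g x0 R I ∧ (∀ l b, B.Ends I l b → b = φ (out g x0 R I)) ∧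
        ∃ l b, B.Ends I l b ∧ (outs g x0 I R l).card < 4 * a} * Fintype.card A ≤
      2 * p * Nat.card (Cell d A → A) := sorry

/-- P5b (helper78): decision version, in terms of the number of errors of the second kind. -/
theorem root_bound' [Fintype A] [NeZero d] (B : NBP (Cell d A) A S) (g : Fin d → Equiv.Perm (Fin N)) (x0 : Fin N → A)
    {R a : ℕ} (hN : 8 * a ≤ N) (hN1 : 1 ≤ N) (Y : Finset A) :
    Nat.card {I : Cell d A → A // CF g x0 R I ∧ out g x0 R I ∈ Y ∧
        ∃ l b, B.Ends I l b ∧ (outs g x0 I R l).card < 4 * a} * (Fintype.card A - Y.card) ≤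
      2 * Y.card * Nat.card {I : Cell d A → A // out g x0 R I ∉ Y ∧ ∃ l b, B.Ends I l b} := sorry

/-- P6 (helper92): the permutations. -/
theorem exists_perms (a : ℕ) (ha : 1 ≤ a) : ∃ g : Fin 13 → Equiv.Perm (Fin (8 * a)), Expands g a := sorry

/-- P6b (helper92): the binomial coefficient. -/
theorem choose_le (a : ℕ) : (8 * a).choose a ≤ 21 ^ a := sorry

/-- P7 (helper96): the deterministic pushdown program. -/
theorem pushdown_program [Fintype A] [NeZero d] (g : Fin d → Equiv.Perm (Fin N)) (x0 : Fin N → A) (R : ℕ)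
    (hA : (R + 1) * N ≤ Fintype.card A) (hN : 1 ≤ N) (hA2 : 2 ≤ Fintype.card A) :
    ∃ (Q Γ : Type) (_ : Finite Q) (_ : Finite Γ) (P : PBP (Cell d A) A Q Γ),
      Nat.card Q ≤ (d * Fintype.card A) ^ 4 ∧ Nat.card Γ ≤ (d * Fintype.card A) ^ 3 ∧
      ∀ I, P.Outputs I (out g x0 R I) ∧ Nat.card {c // P.Asks I c} ≤ (R * d + 1) * N := sorry

/-- P8 (helper98): the sum. `RightOn` is the set of the good instances of the theorem. -/
theorem main_bound [Fintype A] [NeZero d] (B : NBP (Cell d A) A S) (g : Fin d → Equiv.Perm (Fin N)) (x0 : Fin N → A)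
    (h0 : Function.Injective x0) {R T a p : ℕ} (ha : 1 ≤ a) (hN : 8 * a ≤ N) (hE : Expands g a) (φ : A → A)
    (hφ : ∀ y, Nat.card {x // φ x = y} ≤ p) :
    (Nat.card {I : Cell d A → A // (∃ l b, B.Ends I l b) ∧ (∀ l b, B.Ends I l b → b = φ (out g x0 R I)) ∧
        ∀ l b, B.Shortest I l b → Nat.card {c // c ∈ l} ≤ T ∧ min S l.length ≤ 2 ^ R} : ℝ) ≤
      ((2 * p + ((R + 1) * N) ^ 2) / Fintype.card A +
        R * N.choose a * (S : ℝ) ^ 2 * (d * T / Fintype.card A) ^ a) * Nat.card (Cell d A → A) := sorry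

/-- P8b (helper1): the decision version. `Y` is the set to be decided; on the instances counted here the program makes
an error: it accepts (= some computation reaches a final state) although the result is not in `Y`, or does not accept
although it is, or some shortest accepting computation reads more than `T` cells (or is too long). Proof: in the
instances with `CF` the shifts at `(0, val R u0)` show that exactly a part `y` has its result in `Y`; each of them is an
error (part `β₁`), or counted by `good_bound`, or by `root_bound'` (at most `2 y / (1 - y) β₂`, `β₂` the errors with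
result outside `Y`). So `y - V ^ 2 / k - main ≤ β₁ + 2 y / (1 - y) β₂`. -/
theorem decision_bound [Fintype A] [NeZero d] (B : NBP (Cell d A) A S) (g : Fin d → Equiv.Perm (Fin N)) (x0 : Fin N → A)
    (h0 : Function.Injective x0) {R T a : ℕ} (ha : 1 ≤ a) (hN : 8 * a ≤ N) (hE : Expands g a) (Y : Finset A) (y : ℝ)
    (hy : y = Y.card / Fintype.card A) :
    (min y ((1 - y) / 2) - ((R + 1) * N) ^ 2 / Fintype.card A -
        R * N.choose a * (S : ℝ) ^ 2 * (d * T / Fintype.card A) ^ a) * Nat.card (Cell d A → A) ≤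
      Nat.card {I : Cell d A → A // ¬ (((∃ l b, B.Ends I l b) ↔ out g x0 R I ∈ Y) ∧
        ∀ l b, B.Shortest I l b → Nat.card {c // c ∈ l} ≤ T ∧ min S l.length ≤ 2 ^ R)} := sorry

end Pool.Agent.Helper74.NS.Frame
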