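import Pool.Agent.Helper74.NS.PushDefs

/-!
# Frame 2 (only for the work, not for the graded result): nondeterministic pushdown programs
-/

namespace Pool.Agent.Helper74.NS.Frame

open Pool.Agent.Helper74.NS

/-- Q1: derivations. `true` = balanced (the stack is the same at the end and never lower), `false` = open (the stack at
the end is arbitrary, but the stack at the start is never touched). The number is the number of steps. -/
inductive Der {C A Q Γ : Type} (P : NPBP C A Q Γ) (I : C → A) : Bool → Q → Q → List C → ℕ → Prop
  | nil (b : Bool) (p : Q) : Der P I b p p [] 0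
  | ask (b : Bool) (p r q : Q) (c : C) (next : A → Set Q) (l : List C) (n : ℕ) :
      P.act p = .ask c next → r ∈ next (I c) → Der P I b r q l n → Der P I b p q (c :: l) (n + 1)
  | pushpop (b : Bool) (p p1 p2 r q : Q) (γ : Γ) (next : Set (Γ × Q)) (next' : Γ → Set Q) (l1 l2 : List C)
      (n1 n2 : ℕ) : P.act p = .push next → (γ, p1) ∈ next → Der P I true p1 p2 l1 n1 →
      P.act p2 = .pop next' → r ∈ next' γ → Der P I b r q l2 n2 → Der P I b p q (l1 ++ l2) (n1 + n2 + 2)
  | pushopen (p p1 q : Q) (γ : Γ) (next : Set (Γ × Q)) (l : List C) (n : ℕ) :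
      P.act p = .push next → (γ, p1) ∈ next → Der P I false p1 q l n → Der P I false p q l (n + 1)

/-- Q1: computations and open derivations are the same. -/
theorem ends_iff_der {C A Q Γ : Type} (P : NPBP C A Q Γ) (I : C → A) (l : List C) (n : ℕ) (a : A) :
    P.Ends I l n a ↔ ∃ f, Der P I false P.start f l n ∧ P.act f = .out a := sorry

/-- Q2: a nondeterministic pushdown program running for `2 ^ m` steps is simulated by a nondeterministic program without
stack: its states are a guessed final state `f` and a list of at most `m + 1` obligations `(b, p, q)`; of the two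
obligations which come from `pushpop` the one with the shorter derivation is treated first, so the lists stay short. The
moves without query are made inside the sets `next`; `c0` is a dummy query at the start. -/
theorem sim {C A Q Γ : Type} [Fintype Q] (P : NPBP C A Q Γ) (c0 : C) (m : ℕ) :
    ∃ S ≤ (2 * Fintype.card Q ^ 2 + 2) ^ (m + 2), ∃ B : NBP C A S, ∀ I,
      (∀ l n a, P.Ends I l n a → n ≤ 2 ^ m → ∃ l', B.Ends I (c0 :: l') a ∧ l'.Perm l) ∧
      (∀ l' a, B.Ends I l' a → ∃ l n, P.Ends I l n a ∧ l'.Perm (c0 :: l)) := sorry

end Pool.Agent.Helper74.NS.Frame
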