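import Pool.Agent.Helper74.NS.Class
import Pool.Agent.Helper1.NS.Long
import Pool.Agent.Helper66.NS.P4

/-!
# The counting of all classes
-/

namespace Pool.Agent.Helper74.NS

variable {N d : ℕ} {A : Type} [AddCommGroup A] {S : ℕ}

theorem good_bound [Fintype A] (B : NBP (Cell d A) A S) (g : Fin d → Equiv.Perm (Fin N)) (x0 : Fin N → A)
    {R T a : ℕ} (ha : 1 ≤ a) (hE : Expands g a) :
    Nat.card {I : Cell d A → A // CF g x0 R I ∧ ∃ l t, Best B g x0 R I B.start l t ∧ Nat.card {c // c ∈ l} ≤ T ∧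
        4 * a ≤ (outs g x0 I R l).card ∧ l.length ≤ 2 ^ R} * Fintype.card A ^ a ≤
      R * N.choose a * d ^ a * S ^ 2 * T ^ a * Nat.card (Cell d A → A) :=
  Pool.Agent.Helper66.NS.good_bound_of B g x0 ha (fun _ hI l => Pool.Agent.Helper1.NS.long hE hI l)
    (fun _ hi u hu r s t I hI => class_bound B g x0 hi u hu r s t I hI)

end Pool.Agent.Helper74.NS
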