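import Pool.Agent.Helper74.NS.Basic

/-!
# Nondeterministic programs with a pushdown store: definitions
-/

namespace Pool.Agent.Helper74.NS

/-- The instructions of a nondeterministic branching program with a pushdown store: query a cell and move, depending on
the answer, to one of a set of states; push a symbol; pop a symbol; give the output. -/
inductive NPAct (C A Q Γ : Type)
  | ask (c : C) (next : A → Set Q) : NPAct C A Q Γ
  | push (next : Set (Γ × Q)) : NPAct C A Q Γ
  | pop (next : Γ → Set Q) : NPAct C A Q Γ
  | out (a : A) : NPAct C A Q Γ

/-- A nondeterministic branching program with a pushdown store, states `Q`, stack symbols `Γ`. -/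
structure NPBP (C A Q Γ : Type) where
  start : Q
  act : Q → NPAct C A Q Γ

/-- `P.Run I x l n y`: on the input `I` the program can go in `n` steps from the configuration `x` (state and stack) to
the configuration `y`, querying the cells in the list `l`, in this order. -/
inductive NPBP.Run {C A Q Γ : Type} (P : NPBP C A Q Γ) (I : C → A) :
    Q × List Γ → List C → ℕ → Q × List Γ → Prop
  | nil (x : Q × List Γ) : P.Run I x [] 0 x
  | ask (q q' : Q) (st : List Γ) (c : C) (next : A → Set Q) (l : List C) (n : ℕ) (y : Q × List Γ) :
      P.act q = .ask c next → q' ∈ next (I c) → P.Run I (q', st) l n y → P.Run I (q, st) (c :: l) (n + 1) y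
  | push (q q' : Q) (st : List Γ) (γ : Γ) (next : Set (Γ × Q)) (l : List C) (n : ℕ) (y : Q × List Γ) :
      P.act q = .push next → (γ, q') ∈ next → P.Run I (q', γ :: st) l n y → P.Run I (q, st) l (n + 1) y
  | pop (q q' : Q) (st : List Γ) (γ : Γ) (next : Γ → Set Q) (l : List C) (n : ℕ) (y : Q × List Γ) :
      P.act q = .pop next → q' ∈ next γ → P.Run I (q', st) l n y → P.Run I (q, γ :: st) l (n + 1) y

/-- Some computation of `n` steps on the input `I` queries the cells in the list `l` and reaches a final state with
output `a`. -/
def NPBP.Ends {C A Q Γ : Type} (P : NPBP C A Q Γ) (I : C → A) (l : List C) (n : ℕ) (a : A) : Prop :=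
  ∃ y, P.Run I (P.start, []) l n y ∧ P.act y.1 = .out a

end Pool.Agent.Helper74.NS
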